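import Pool.Agent.Helper10.RS.Goals2
import Pool.Agent.Helper57.RS.FRAT

/-! # Project RS, packet FRAT2 -/

set_option autoImplicit false

namespace Pool.Agent.Helper82.RS

open Subgroup
open Pool.Agent.Helper57.RS (cyc_quot)

universe u

/-- a finite cyclic group has elements of all orders dividing its order -/
theorem exists_order {U : Type} [CommGroup U] [Finite U] [IsCyclic U] (A : Subgroup U) {m : ℕ}
    (h : m ∣ Nat.card A) : ∃ u ∈ A, orderOf u = m := by
  obtain ⟨g, hg⟩ := IsCyclic.exists_ofOrder_eq_natCard (α := A)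
  obtain ⟨k, hk⟩ := h
  have hm : m ≠ 0 := by
    rintro rfl
    rw [zero_mul] at hk
    exact absurd hk Nat.card_pos.ne'
  have hk0 : k ≠ 0 := by
    rintro rfl
    rw [mul_zero] at hk
    exact absurd hk Nat.card_pos.ne'
  refine ⟨((g ^ k : A) : U), (g ^ k).2, ?_⟩
  rw [Subgroup.orderOf_coe, orderOf_pow' _ hk0, hg, hk,
    Nat.gcd_eq_right (Dvd.intro_left m rfl), Nat.mul_div_cancel _ (Nat.pos_of_ne_zero hk0)]

theorem p_frat2 : Pool.Agent.Helper10.RS.FRAT2.{u} := by
  intro G _ _ r l hr hl hr2 hconj hidx X Y hX hY hYX hrY hrX x hx a ha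
  classical
  have := Fact.mk hr
  have := Fact.mk hl
  obtain ⟨P⟩ : Nonempty (Sylow r X) := inferInstance
  set R : Subgroup G := (P : Subgroup X).map X.subtype with hR
  have hX2 : ¬ r ^ 2 ∣ Nat.card X := fun h => hr2 (h.trans (card_subgroup_dvd_card X))
  have hRX : R ≤ X := map_subtype_le _
  have hcR : Nat.card R = r := by
    have h1 : Nat.card R = Nat.card (P : Subgroup X) :=
      (Nat.card_congr ((P : Subgroup X).equivMapOfInjective X.subtype X.subtype_injective).toEquiv).symm
    have h2 : Nat.card (P : Subgroup X) = r ^ (Nat.card X).factorization r := P.card_eq_multiplicity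
    have h3 : (Nat.card X).factorization r = 1 := by
      have h4 : 1 ≤ (Nat.card X).factorization r :=
        (hr.dvd_iff_one_le_factorization Nat.card_pos.ne').1 hrX
      have h5 : ¬ 2 ≤ (Nat.card X).factorization r := fun h =>
        hX2 ((hr.pow_dvd_iff_le_factorization Nat.card_pos.ne').2 h)
      omega
    rw [h1, h2, h3, pow_one]
  have hRY : R ⊓ Y = ⊥ := by
    refine (disjoint_of_coprime_natCard ?_).eq_bot
    rw [hcR]
    exact (Nat.Prime.coprime_iff_not_dvd hr).2 hrY
  have hRc : IsCyclic R := isCyclic_of_prime_card hcR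
  set N : Subgroup G := normalizer (R : Set G) with hN
  have hfrat : N ⊔ X = ⊤ := P.normalizer_sup_eq_top
  set φ : N →* MulAut R := R.normalizerMonoidHom with hφ
  have hφv : ∀ (n : N) (x : R), ((φ n x : R) : G) = (n : G) * x * (n : G)⁻¹ := fun _ _ => rfl
  -- a generator of `R`
  obtain ⟨x0, hx0⟩ := IsCyclic.exists_generator (α := R)
  have hx01 : x0 ≠ 1 := by
    intro h
    have h1 : Subgroup.zpowers x0 = ⊤ := by
      rw [eq_top_iff]
      intro y _
      exact hx0 y
    have h2 := orderOf_eq_card_of_zpowers_eq_top h1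
    rw [h, orderOf_one, hcR] at h2
    exact hr.one_lt.ne h2
  have hφsurj : Function.Surjective φ := by
    intro α
    have hy1 : α x0 ≠ 1 := by
      intro h
      apply hx01
      apply α.injective
      rw [h, map_one]
    obtain ⟨g, hg⟩ := hconj R hcR x0 x0.2 (α x0) (α x0).2 (fun h => hx01 (Subtype.ext h))
      (fun h => hy1 (Subtype.ext h))
    have hgR : R.map (MulAut.conj g).toMonoidHom ≤ R := by
      rintro _ ⟨x, hx, rfl⟩
      obtain ⟨i, hi⟩ := hx0 ⟨x, hx⟩
      have h1 : x = (x0 : G) ^ i := by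
        have := congrArg Subtype.val hi
        simpa using this.symm
      have h2 : (MulAut.conj g).toMonoidHom x = ((α x0 : R) : G) ^ i := by
        rw [h1, map_zpow]
        congr 1
      rw [h2]
      exact zpow_mem (α x0).2 i
    have hgR' : R.map (MulAut.conj g).toMonoidHom = R := by
      refine eq_of_le_of_card_ge hgR (le_of_eq ?_)
      exact Nat.card_congr (R.equivMapOfInjective _ (MulAut.conj g).injective).toEquiv
    have hgN : g ∈ N := by
      rw [hN, mem_normalizer_iff]
      intro h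
      constructor
      · intro hh
        exact hgR (mem_map_of_mem _ hh)
      · intro hh
        have h3 : g * h * g⁻¹ ∈ R.map (MulAut.conj g).toMonoidHom := by
          rw [hgR']
          exact hh
        obtain ⟨y, hy, hyh⟩ := h3
        have h4 : y = h := (MulAut.conj g).injective hyh
        rw [← h4]
        exact hy
    refine ⟨⟨g, hgN⟩, ?_⟩
    ext y
    obtain ⟨i, rfl⟩ := hx0 y
    simp only [map_zpow]
    have h5 : φ ⟨g, hgN⟩ x0 = α x0 := Subtype.ext hg
    rw [h5]
  -- the action of `N ∩ X`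
  set f : N →* G ⧸ X := (QuotientGroup.mk' X).comp N.subtype with hf
  have hfsurj : Function.Surjective f := by
    intro q
    obtain ⟨g, rfl⟩ := QuotientGroup.mk'_surjective X q
    have hg : g ∈ N ⊔ X := by
      rw [hfrat]
      exact mem_top g
    obtain ⟨n, hn, x, hx, rfl⟩ := mem_sup_of_normal_right.1 hg
    refine ⟨⟨n, hn⟩, ?_⟩
    rw [hf, MonoidHom.comp_apply, map_mul]
    have h1 : QuotientGroup.mk' X x = 1 := (QuotientGroup.eq_one_iff x).2 hx
    rw [h1, mul_one]
    rfl
  -- the automorphism group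
  let e : MulAut R ≃* (ZMod (Nat.card R))ˣ := IsCyclic.mulAutMulEquiv R
  have : Fact (Nat.card R).Prime := ⟨hcR ▸ hr⟩
  have hcU : Nat.card (ZMod (Nat.card R))ˣ = r - 1 := by
    rw [← Nat.card_congr e.toEquiv, IsCyclic.card_mulAut, hcR, Nat.totient_prime hr]
  set ψ : N →* (ZMod (Nat.card R))ˣ := e.toMonoidHom.comp φ with hψ
  have hψsurj : Function.Surjective ψ := e.surjective.comp hφsurj
  set A : Subgroup (ZMod (Nat.card R))ˣ := f.ker.map ψ with hA
  have key : ∀ a : ℕ, l ^ a ∣ r - 1 → l ^ a ∣ Nat.card A := by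
    intro a ha
    by_contra hcon
    have h1 : Nat.card A * A.index = r - 1 := by rw [A.card_mul_index, hcU]
    have h2 : l ∣ A.index := by
      by_contra h
      apply hcon
      have h3 : (l ^ a).Coprime A.index := Nat.Coprime.pow_left a
        ((Nat.Prime.coprime_iff_not_dvd hl).2 h)
      rw [← h1] at ha
      exact h3.dvd_of_dvd_mul_right ha
    obtain ⟨B, hAB, hB⟩ := cyc_quot A h2
    set χ : N →* (ZMod (Nat.card R))ˣ ⧸ B := (QuotientGroup.mk' B).comp ψ with hχ
    have hχsurj : Function.Surjective χ := (QuotientGroup.mk'_surjective B).comp hψsurj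
    have hker : f.ker ≤ χ.ker := by
      intro n hn
      rw [MonoidHom.mem_ker, hχ, MonoidHom.comp_apply, QuotientGroup.mk'_apply]
      exact (QuotientGroup.eq_one_iff _).2 (hAB (mem_map_of_mem ψ hn))
    set θ : G ⧸ X →* (ZMod (Nat.card R))ˣ ⧸ B := f.liftOfSurjective hfsurj ⟨χ, hker⟩ with hθ
    have hθf : ∀ n : N, θ (f n) = χ n := fun n =>
      f.liftOfRightInverse_comp_apply _ (Function.rightInverse_surjInv hfsurj) ⟨χ, hker⟩ n
    have hθsurj : Function.Surjective θ := by
      intro u
      obtain ⟨n, rfl⟩ := hχsurj u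
      exact ⟨f n, hθf n⟩
    have hsurj : Function.Surjective (θ.comp (QuotientGroup.mk' X)) :=
      hθsurj.comp (QuotientGroup.mk'_surjective X)
    refine hidx (θ.comp (QuotientGroup.mk' X)).ker inferInstance ?_
    rw [index_ker, MonoidHom.range_eq_top_of_surjective _ hsurj, card_top]
    exact hB
  have hkerX : ∀ n : N, n ∈ f.ker → (n : G) ∈ X := by
    intro n hn
    rw [MonoidHom.mem_ker] at hn
    exact (QuotientGroup.eq_one_iff (n : G)).1 hn
  obtain ⟨u, huA, hu⟩ := exists_order A (key a ha)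
  obtain ⟨n, hn, rfl⟩ := huA
  have hnX := hkerX n hn
  -- the exponent
  have hox0 : orderOf x0 = r := by
    rw [← hcR]
    exact orderOf_eq_card_of_forall_mem_zpowers hx0
  obtain ⟨s, hs⟩ : ∃ s : ℕ, x0 ^ s = φ n x0 := by
    have h1 := hx0 (φ n x0)
    rw [← mem_powers_iff_mem_zpowers] at h1
    exact h1
  have hpow : ∀ y : R, φ n y = y ^ s := by
    intro y
    obtain ⟨i, rfl⟩ := hx0 y
    simp only [map_zpow]
    rw [← hs, ← zpow_natCast, ← zpow_natCast, ← zpow_mul, ← zpow_mul, mul_comm]
  have hiter : ∀ k : ℕ, (φ n ^ k) x0 = x0 ^ (s ^ k) := by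
    intro k
    induction k with
    | zero => simp
    | succ k ih => rw [pow_succ', MulAut.mul_apply, ih, hpow, ← pow_mul, pow_succ]
  have hord : orderOf (s : ZMod r) = l ^ a := by
    have h1 : orderOf (ψ n) = orderOf (φ n) := by
      rw [hψ, MonoidHom.comp_apply]
      exact orderOf_injective e.toMonoidHom e.injective (φ n)
    rw [← hu, h1, orderOf_eq_orderOf_iff]
    intro k
    have h2 : (φ n ^ k = 1) ↔ x0 ^ (s ^ k) = x0 ^ 1 := by
      rw [← hiter, pow_one]
      constructor
      · intro h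
        rw [h]
        rfl
      · intro h
        ext y
        obtain ⟨i, rfl⟩ := hx0 y
        simp only [map_zpow]
        rw [h]
        rfl
    rw [h2, pow_eq_pow_iff_modEq, hox0, ← ZMod.natCast_eq_natCast_iff]
    push_cast
    rfl
  -- the quotient
  have hpx : IsPGroup r (Subgroup.zpowers x) := by
    refine IsPGroup.of_card (n := 1) ?_
    rw [Nat.card_zpowers, hx, pow_one]
  obtain ⟨Q, hQ⟩ := hpx.exists_le_sylow
  obtain ⟨t, ht⟩ := MulAction.exists_smul_eq (↥X ⧸ Y.subgroupOf X)
    (P.mapSurjective (QuotientGroup.mk'_surjective (Y.subgroupOf X))) Q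
  have hxQ : x ∈ (Q : Subgroup (↥X ⧸ Y.subgroupOf X)) := hQ (mem_zpowers x)
  rw [← ht] at hxQ
  obtain ⟨z, hz, hzx⟩ := hxQ
  obtain ⟨y, hy, rfl⟩ := hz
  have hzx' : t * (QuotientGroup.mk' (Y.subgroupOf X) y) * t⁻¹ = x := hzx
  refine ⟨t * QuotientGroup.mk' (Y.subgroupOf X) ⟨n, hnX⟩ * t⁻¹, s, ?_, hord⟩
  have hyR : (y : G) ∈ R := ⟨y, hy, rfl⟩
  have h1 : (⟨n, hnX⟩ : X) * y * (⟨n, hnX⟩ : X)⁻¹ = y ^ s := by
    apply Subtype.ext
    have h2 := congrArg Subtype.val (hpow ⟨y, hyR⟩)
    rw [hφv] at h2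
    simpa using h2
  rw [← hzx', conj_pow, ← map_pow, ← h1, map_mul, map_mul, map_inv]
  group

end Pool.Agent.Helper82.RS
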